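import Pool.Agent.Work.MP_9999b5_sp.B_EX2
import Pool.Agent.Work.MP_9999b5_sp.B_ZE2
import Pool.Agent.Work.MP_9999b5_sp.B_PRT
import Pool.Agent.Work.MP_9999b5_sp.B_SHF
import Pool.Agent.Work.MP_9999b5_mr.B_PAI

/-!
RST (MP_9999b5_co, Manickam-Miklos-Singhi): the strict R-flow for distinct reals (helper54, helper9; typed by helper43).
-/

set_option autoImplicit false

namespace Pool.Agent.Work.MP_9999b5_st

open Finset Pool.Agent.Work.MP_9999b5_sp

open Topology in
theorem RST_pert {ι : Type} [DecidableEq ι] (k T : ℕ) (φ : ℝ) (hT : 1 ≤ T)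
    (hW : Pool.Agent.Work.MaxSums.W T (k + T) φ) (R : Finset ι) (x : ι → ℝ)
    (hR : R.card = k + T) (hinj : Set.InjOn x R) (c s : ℝ) (hc : 0 ≤ c) (hs : ∑ i ∈ R, x i = s)
    (z v : ι) (hz : z ∈ R) (hv : v ∈ R) (hzv : v ≠ z) :
    φ * ((k + T).choose T : ℝ) ≤
      ((((R.powersetCard T).filter (fun K => ∑ i ∈ K, x i < c)).filter (fun K => z ∉ K)).card : ℝ)
      + ((((R.powersetCard T).filter (fun K => ∑ i ∈ K, x i = c ∧ z ∉ K)).filter
        (fun K => v ∈ K)).card : ℝ)
      + ((((R.powersetCard T).filter (fun K => ∑ i ∈ K, x i < s)).filter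
        (fun K => z ∈ K)).card : ℝ) := by
  set s' := s - c - c * k / T with hs'def
  have hT0 : (0 : ℝ) < (T : ℝ) := by exact_mod_cast hT
  set b : ι → ℝ := fun i => -x i + c / T + (if i = z then s' else 0) with hb
  set d : ι → ℝ := fun i => (if i = v then (1 : ℝ) else 0) - (if i = z then (1 : ℝ) else 0) with hd
  have hsb : ∀ K : Finset ι, ∑ i ∈ K, b i = -(∑ i ∈ K, x i) + K.card * (c / T) +
      (if z ∈ K then s' else 0) := by
    intro K
    rw [hb]
    rw [Finset.sum_add_distrib, Finset.sum_add_distrib, Finset.sum_neg_distrib,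
      Finset.sum_const, nsmul_eq_mul, Finset.sum_ite_eq']
  have hsd : ∀ K : Finset ι, ∑ i ∈ K, d i = (if v ∈ K then (1 : ℝ) else 0) -
      (if z ∈ K then (1 : ℝ) else 0) := by
    intro K
    rw [hd]
    rw [Finset.sum_sub_distrib, Finset.sum_ite_eq', Finset.sum_ite_eq']
  have hsum : ∀ (K : Finset ι) (ε : ℝ), ∑ i ∈ K, (b i + ε * d i) = ∑ i ∈ K, b i +
      ε * ∑ i ∈ K, d i := by
    intro K ε
    rw [Finset.sum_add_distrib, ← Finset.mul_sum]
  have hdz : d z = -1 := by
    rw [hd]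
    simp only [if_neg (Ne.symm hzv), if_pos]
    norm_num
  have hdne : ∀ j, j ≠ z → 0 ≤ d j := by
    intro j hj
    rw [hd]
    simp only [if_neg hj, sub_zero]
    split_ifs <;> norm_num
  have h1 : ∀ᶠ ε in 𝓝[>] (0 : ℝ), ∀ i ∈ R, ∀ j ∈ R, i ≠ j → b i + ε * d i ≠ b j + ε * d j := by
    rw [Filter.eventually_all_finset]
    intro i hi
    rw [Filter.eventually_all_finset]
    intro j hj
    by_cases hij : i = j
    · exact Filter.Eventually.of_forall (fun ε h => absurd hij h)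
    · by_cases hdd : d i = d j
      · have hiz : i ≠ z := by
          intro h
          rw [h, hdz] at hdd
          have := hdne j (fun h' => hij (h.trans h'.symm))
          linarith
        have hjz : j ≠ z := by
          intro h
          rw [h, hdz] at hdd
          have := hdne i (fun h' => hij (h'.trans h.symm))
          linarith
        refine Filter.Eventually.of_forall (fun ε _ h => ?_)
        rw [hdd] at h
        have h3 : b i = b j := by linarith
        rw [hb] at h3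
        simp only [if_neg hiz, if_neg hjz] at h3
        exact hij (hinj hi hj (by linarith))
      · filter_upwards [PRT_ne (b i) (b j) (d i) (d j) hdd] with ε hε
        intro _
        exact hε
  have h2 : ∀ᶠ ε in 𝓝[>] (0 : ℝ), ∀ B ∈ R.powersetCard T, ∑ i ∈ B, b i < 0 →
      ∑ i ∈ B, (b i + ε * d i) < 0 := by
    rw [Filter.eventually_all_finset]
    intro B _
    by_cases hB : ∑ i ∈ B, b i < 0
    · filter_upwards [PRT_lt B b d hB] with ε hε
      intro _
      exact hε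
    · exact Filter.Eventually.of_forall (fun ε h => absurd h hB)
  have h3 : ∀ᶠ ε in 𝓝[>] (0 : ℝ), 0 < ε := self_mem_nhdsWithin
  obtain ⟨ε, ⟨he1, he2⟩, he3⟩ := ((h1.and h2).and h3).exists
  have hinj' : Set.InjOn (fun i => b i + ε * d i) R := by
    intro i hi j hj hij
    by_contra hne
    exact he1 i hi j hj hne hij
  have hcT : ((k + T : ℕ) : ℝ) * (c / T) = c + c * k / T := by
    push_cast
    field_simp
    ring
  have hsumR : 0 ≤ ∑ i ∈ R, (fun i => b i + ε * d i) i := by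
    simp only
    rw [hsum R ε, hsb R, hsd R, if_pos hz, if_pos hv, if_pos hz, hR, hcT, hs]
    linarith
  have hmain := hW ι R (fun i => b i + ε * d i) hR hinj' hsumR
  refine hmain.trans ?_
  unfold Pool.Agent.Work.MaxSums.pos
  rw [← Nat.cast_add, ← Nat.cast_add]
  apply Nat.cast_le.2
  refine (Finset.card_le_card (t := (((R.powersetCard T).filter
    (fun K => ∑ i ∈ K, x i < c)).filter (fun K => z ∉ K) ∪
      ((R.powersetCard T).filter (fun K => ∑ i ∈ K, x i = c ∧ z ∉ K)).filter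
        (fun K => v ∈ K)) ∪
      ((R.powersetCard T).filter (fun K => ∑ i ∈ K, x i < s)).filter
        (fun K => z ∈ K)) ?_).trans ?_
  · intro K hK
    obtain ⟨hK1, hK2⟩ := Finset.mem_filter.1 hK
    obtain ⟨-, hK3⟩ := Finset.mem_powersetCard.1 hK1
    have hKb : 0 ≤ ∑ i ∈ K, b i := by
      by_contra hcon
      have := he2 K hK1 (not_le.1 hcon)
      simp only at hK2
      linarith
    simp only at hK2
    rw [hsum K ε] at hK2
    have hKT : (K.card : ℝ) * (c / T) = c := by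
      rw [hK3]
      field_simp
    have e1 := hsb K
    have e2 := hsd K
    rw [hKT] at e1
    by_cases hzK : z ∈ K
    · rw [if_pos hzK] at e1 e2
      have hd0 : ∑ i ∈ K, d i ≤ 0 := by
        rw [e2]
        split_ifs <;> norm_num
      have hlt : 0 < ∑ i ∈ K, b i := by
        have := mul_nonpos_of_nonneg_of_nonpos he3.le hd0
        linarith
      refine Finset.mem_union_right _ (Finset.mem_filter.2 ⟨Finset.mem_filter.2 ⟨hK1, ?_⟩, hzK⟩)
      have hck : 0 ≤ c * k / T := by positivity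
      linarith
    · rw [if_neg hzK] at e1 e2
      rw [sub_zero] at e2
      refine Finset.mem_union_left _ ?_
      rcases hKb.lt_or_eq with h | h
      · refine Finset.mem_union_left _ (Finset.mem_filter.2 ⟨Finset.mem_filter.2 ⟨hK1, ?_⟩, hzK⟩)
        linarith
      · refine Finset.mem_union_right _
          (Finset.mem_filter.2 ⟨Finset.mem_filter.2 ⟨hK1, ?_, hzK⟩, ?_⟩)
        · linarith
        · by_contra hvK
          rw [if_neg hvK] at e2
          rw [← h, e2] at hK2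
          simp at hK2
  · refine (Finset.card_union_le _ _).trans ?_
    exact Nat.add_le_add_right (Finset.card_union_le _ _) _

theorem RST_loc {ι : Type} [DecidableEq ι] (k T : ℕ) (φ : ℝ) (hk : 1 ≤ k) (hT : 1 ≤ T)
    (hW : Pool.Agent.Work.MaxSums.W T (k + T) φ) (R : Finset ι) (x : ι → ℝ)
    (hR : R.card = k + T) (hinj : Set.InjOn x R) (c s : ℝ) (hc : 0 ≤ c) (hcs : c ≤ s)
    (hs : ∑ i ∈ R, x i = s) :
    φ * ((k + T) * (k + T - 1)) * ((k + T).choose T : ℝ) ≤
      (k + T - 1) * k * (((R.powersetCard T).filter (fun K => ∑ i ∈ K, x i < c)).card : ℝ)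
      + (k + T - 1) * T * (((R.powersetCard T).filter (fun K => ∑ i ∈ K, x i < s)).card : ℝ)
      + k * T * (((R.powersetCard T).filter (fun K => ∑ i ∈ K, x i = c ∧ c < s)).card : ℝ) := by
  have hT0 : (0 : ℝ) < (T : ℝ) := by exact_mod_cast hT
  have hk1 : (1 : ℝ) ≤ (k : ℝ) := by exact_mod_cast hk
  have hT1 : (1 : ℝ) ≤ (T : ℝ) := by exact_mod_cast hT
  set nL := (((R.powersetCard T).filter (fun K => ∑ i ∈ K, x i < c)).card : ℝ) with hnL
  set nS := (((R.powersetCard T).filter (fun K => ∑ i ∈ K, x i < s)).card : ℝ) with hnS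
  set nZ := (((R.powersetCard T).filter (fun K => ∑ i ∈ K, x i = c ∧ c < s)).card : ℝ) with hnZ
  have hnL0 : 0 ≤ nL := Nat.cast_nonneg _
  have hnZ0 : 0 ≤ nZ := Nat.cast_nonneg _
  have hcT : ((k + T : ℕ) : ℝ) * (c / T) = c + c * k / T := by
    push_cast
    field_simp
    ring
  by_cases hs' : 0 < s - c - c * k / T
  · have hck : 0 ≤ c * k / T := by positivity
    have hcs2 : c < s := by linarith
    have key : ∀ z ∈ R, (k + T - 1) * (φ * ((k + T).choose T : ℝ)) ≤
        (k + T - 1) * ((((R.powersetCard T).filter (fun K => ∑ i ∈ K, x i < c)).filter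
          (fun K => z ∉ K)).card : ℝ)
        + T * (((R.powersetCard T).filter (fun K => ∑ i ∈ K, x i = c ∧ z ∉ K)).card : ℝ)
        + (k + T - 1) * ((((R.powersetCard T).filter (fun K => ∑ i ∈ K, x i < s)).filter
          (fun K => z ∈ K)).card : ℝ) := by
      intro z hz
      have h1 : ∀ v ∈ R.erase z, φ * ((k + T).choose T : ℝ) ≤
          ((((R.powersetCard T).filter (fun K => ∑ i ∈ K, x i < c)).filter
            (fun K => z ∉ K)).card : ℝ)
          + ((((R.powersetCard T).filter (fun K => ∑ i ∈ K, x i = c ∧ z ∉ K)).filter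
            (fun K => v ∈ K)).card : ℝ)
          + ((((R.powersetCard T).filter (fun K => ∑ i ∈ K, x i < s)).filter
            (fun K => z ∈ K)).card : ℝ) := by
        intro v hv
        exact RST_pert k T φ hT hW R x hR hinj c s hc hs z v hz (Finset.mem_of_mem_erase hv)
          (Finset.ne_of_mem_erase hv)
      have h2 := Finset.sum_le_sum h1
      rw [Finset.sum_const, nsmul_eq_mul, Finset.sum_add_distrib, Finset.sum_add_distrib,
        Finset.sum_const, nsmul_eq_mul, Finset.sum_const, nsmul_eq_mul,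
        ← Nat.cast_sum, Finset.card_erase_of_mem hz, hR] at h2
      have c1 : ∑ v ∈ R.erase z, (((R.powersetCard T).filter
          (fun K => ∑ i ∈ K, x i = c ∧ z ∉ K)).filter (fun K => v ∈ K)).card =
          T * ((R.powersetCard T).filter (fun K => ∑ i ∈ K, x i = c ∧ z ∉ K)).card := by
        apply SHF_count (R.erase z) _ (fun v K => v ∈ K) T
        intro K hK
        obtain ⟨hK1, hK2⟩ := Finset.mem_filter.1 hK
        obtain ⟨hK3, hK4⟩ := Finset.mem_powersetCard.1 hK1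
        have : (R.erase z).filter (fun v => v ∈ K) = K := by
          ext i
          rw [Finset.mem_filter, Finset.mem_erase]
          constructor
          · exact fun h => h.2
          · intro h
            refine ⟨⟨?_, hK3 h⟩, h⟩
            intro h'
            rw [h'] at h
            exact hK2.2 h
        rw [this, hK4]
      rw [c1] at h2
      have c2 : ((k + T - 1 : ℕ) : ℝ) = (k : ℝ) + T - 1 := by
        rw [Nat.cast_sub (by omega)]
        push_cast
        ring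
      rw [c2] at h2
      push_cast at h2
      linarith
    have hs2 := Finset.sum_le_sum key
    rw [Finset.sum_const, nsmul_eq_mul, Finset.sum_add_distrib, Finset.sum_add_distrib,
      ← Finset.mul_sum, ← Finset.mul_sum, ← Finset.mul_sum, ← Nat.cast_sum, ← Nat.cast_sum,
      ← Nat.cast_sum, hR] at hs2
    have d1 : ∑ z ∈ R, (((R.powersetCard T).filter (fun K => ∑ i ∈ K, x i < c)).filter
        (fun K => z ∉ K)).card =
        k * ((R.powersetCard T).filter (fun K => ∑ i ∈ K, x i < c)).card := by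
      apply SHF_count R _ (fun z K => z ∉ K) k
      intro K hK
      obtain ⟨hK1, hK2⟩ := Finset.mem_powersetCard.1 (Finset.mem_filter.1 hK).1
      have : R.filter (fun z => z ∉ K) = R \ K := by
        ext i
        rw [Finset.mem_filter, Finset.mem_sdiff]
      rw [this, Finset.card_sdiff_of_subset hK1, hR, hK2]
      omega
    have d2 : ∑ z ∈ R, (((R.powersetCard T).filter (fun K => ∑ i ∈ K, x i < s)).filter
        (fun K => z ∈ K)).card =
        T * ((R.powersetCard T).filter (fun K => ∑ i ∈ K, x i < s)).card := by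
      apply SHF_count R _ (fun z K => z ∈ K) T
      intro K hK
      obtain ⟨hK1, hK2⟩ := Finset.mem_powersetCard.1 (Finset.mem_filter.1 hK).1
      have : R.filter (fun z => z ∈ K) = K := by
        ext i
        rw [Finset.mem_filter]
        exact ⟨fun h => h.2, fun h => ⟨hK1 h, h⟩⟩
      rw [this, hK2]
    have d3 : ∑ z ∈ R, ((R.powersetCard T).filter (fun K => ∑ i ∈ K, x i = c ∧ z ∉ K)).card =
        k * ((R.powersetCard T).filter (fun K => ∑ i ∈ K, x i = c ∧ c < s)).card := by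
      have e1 : ∀ z ∈ R, ((R.powersetCard T).filter (fun K => ∑ i ∈ K, x i = c ∧ z ∉ K)).card =
          (((R.powersetCard T).filter (fun K => ∑ i ∈ K, x i = c ∧ c < s)).filter
            (fun K => z ∉ K)).card := by
        intro z _
        congr 1
        ext K
        simp only [Finset.mem_filter]
        constructor
        · rintro ⟨a, b, e⟩
          exact ⟨⟨a, b, hcs2⟩, e⟩
        · rintro ⟨⟨a, b, _⟩, e⟩
          exact ⟨a, b, e⟩
      rw [Finset.sum_congr rfl e1]
      apply SHF_count R _ (fun z K => z ∉ K) k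
      intro K hK
      obtain ⟨hK1, hK2⟩ := Finset.mem_powersetCard.1 (Finset.mem_filter.1 hK).1
      have : R.filter (fun z => z ∉ K) = R \ K := by
        ext i
        rw [Finset.mem_filter, Finset.mem_sdiff]
      rw [this, Finset.card_sdiff_of_subset hK1, hR, hK2]
      omega
    rw [d1, d2, d3] at hs2
    push_cast at hs2
    linarith
  · -- no shift
    rw [not_lt] at hs'
    have hsb : ∀ K : Finset ι, ∑ i ∈ K, (-x i + c / T) = -(∑ i ∈ K, x i) + K.card * (c / T) := by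
      intro K
      rw [Finset.sum_add_distrib, Finset.sum_neg_distrib, Finset.sum_const, nsmul_eq_mul]
    have h1 := hW ι R (fun i => -x i + c / T) hR (by
      intro i hi j hj hij
      simp only at hij
      exact hinj hi hj (by linarith)) (by
      rw [hsb R, hR, hcT, hs]
      linarith)
    have h2 : (Pool.Agent.Work.MaxSums.pos (fun i => -x i + c / T) R T : ℝ) ≤ nL := by
      unfold Pool.Agent.Work.MaxSums.pos
      rw [hnL]
      apply Nat.cast_le.2
      apply Finset.card_le_card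
      intro K hK
      obtain ⟨hK1, hK2⟩ := Finset.mem_filter.1 hK
      obtain ⟨-, hK3⟩ := Finset.mem_powersetCard.1 hK1
      refine Finset.mem_filter.2 ⟨hK1, ?_⟩
      rw [hsb K, hK3] at hK2
      have hKT : (T : ℝ) * (c / T) = c := by field_simp
      linarith
    have h3 : nL ≤ nS := by
      rw [hnL, hnS]
      apply Nat.cast_le.2
      apply Finset.card_le_card
      intro K hK
      obtain ⟨hK1, hK2⟩ := Finset.mem_filter.1 hK
      exact Finset.mem_filter.2 ⟨hK1, lt_of_lt_of_le hK2 hcs⟩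
    have h4 : φ * ((k + T).choose T : ℝ) ≤ nL := h1.trans h2
    have h5 : (0 : ℝ) ≤ ((k : ℝ) + T) * (k + T - 1) := by
      apply mul_nonneg <;> linarith
    have h6 := mul_le_mul_of_nonneg_left h4 h5
    have h7 : (0 : ℝ) ≤ ((k : ℝ) + T - 1) * T := by
      apply mul_nonneg <;> linarith
    have h8 := mul_le_mul_of_nonneg_left h3 h7
    have h9 : (0 : ℝ) ≤ k * T * nZ := by positivity
    nlinarith

/-- pairs with second sum `≤ 0` and light rest -/
noncomputable def RST_A {ι : Type} [DecidableEq ι] (C : Finset ι) (x : ι → ℝ) (k : ℕ) : ℕ :=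
  ((MP_9999b5_mr.prs C k).filter (fun p => ∑ i ∈ p.2, x i ≤ 0 ∧
    ∑ i ∈ (C \ p.2) \ p.1, x i < ∑ i ∈ C, x i)).card

/-- pairs with second sum `≤ 0`, first sum positive -/
noncomputable def RST_G {ι : Type} [DecidableEq ι] (C : Finset ι) (x : ι → ℝ) (k : ℕ) : ℕ :=
  ((MP_9999b5_mr.prs C k).filter (fun p => ∑ i ∈ p.2, x i ≤ 0 ∧ 0 < ∑ i ∈ p.1, x i)).card

/-- pairs with second sum negative, total zero -/
noncomputable def RST_Z {ι : Type} [DecidableEq ι] (C : Finset ι) (x : ι → ℝ) (k : ℕ) : ℕ :=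
  ((MP_9999b5_mr.prs C k).filter (fun p => ∑ i ∈ p.2, x i < 0 ∧
    ∑ i ∈ p.1, x i + ∑ i ∈ p.2, x i = 0)).card

/-- pairs with total zero -/
noncomputable def RST_Y {ι : Type} [DecidableEq ι] (C : Finset ι) (x : ι → ℝ) (k : ℕ) : ℕ :=
  ((MP_9999b5_mr.prs C k).filter (fun p => ∑ i ∈ p.1, x i + ∑ i ∈ p.2, x i = 0)).card

theorem RST_LG {ι : Type} [DecidableEq ι] (C : Finset ι) (x : ι → ℝ) (k : ℕ) :
    EX2_L C x k = RST_G C x k + MP_9999b5_mr.bad C x k := by
  unfold EX2_L RST_G MP_9999b5_mr.bad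
  rw [← card_union_of_disjoint]
  · congr 1
    ext p
    simp only [mem_union, mem_filter]
    constructor
    · rintro ⟨hp, h⟩
      rcases lt_or_ge 0 (∑ i ∈ p.1, x i) with ha | ha
      · exact Or.inl ⟨hp, h, ha⟩
      · exact Or.inr ⟨hp, ha, h⟩
    · rintro (⟨hp, h, _⟩ | ⟨hp, _, h⟩)
      · exact ⟨hp, h⟩
      · exact ⟨hp, h⟩
  · rw [disjoint_filter]
    rintro p _ ⟨_, h⟩ ⟨h', _⟩
    linarith

theorem RST_AN {ι : Type} [DecidableEq ι] (C : Finset ι) (x : ι → ℝ) (k : ℕ) :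
    RST_A C x k ≤ (EXG_N C x k).card := by
  unfold RST_A EXG_N
  apply card_le_card
  intro p hp
  obtain ⟨h1, h2, h3⟩ := mem_filter.1 hp
  obtain ⟨a1, a2, a3, a4, a5⟩ := EXG_prs.1 h1
  have hDC : p.1 ⊆ C \ p.2 := subset_sdiff.2 ⟨a1, a5⟩
  have sC : ∑ i ∈ C \ p.2, x i + ∑ i ∈ p.2, x i = ∑ i ∈ C, x i := sum_sdiff a3
  have sD : ∑ i ∈ (C \ p.2) \ p.1, x i + ∑ i ∈ p.1, x i = ∑ i ∈ C \ p.2, x i := sum_sdiff hDC
  refine mem_filter.2 ⟨h1, ?_, h2, ?_⟩
  · linarith
  · linarith

theorem RST_swap {ι : Type} [DecidableEq ι] (C : Finset ι) (x : ι → ℝ) (k : ℕ) :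
    ((MP_9999b5_mr.prs C k).filter (fun p => ∑ i ∈ p.1, x i < 0 ∧
      ∑ i ∈ p.1, x i + ∑ i ∈ p.2, x i = 0)).card = RST_Z C x k := by
  unfold RST_Z
  refine card_nbij' Prod.swap Prod.swap ?_ ?_ ?_ ?_
  · intro p hp
    obtain ⟨h1, h2, h3⟩ := mem_filter.1 (mem_coe.1 hp)
    obtain ⟨a1, a2, a3, a4, a5⟩ := EXG_prs.1 h1
    refine mem_coe.2 (mem_filter.2 ⟨EXG_prs.2 ⟨a3, a4, a1, a2, a5.symm⟩, h2, ?_⟩)
    rw [add_comm]
    exact h3
  · intro p hp
    obtain ⟨h1, h2, h3⟩ := mem_filter.1 (mem_coe.1 hp)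
    obtain ⟨a1, a2, a3, a4, a5⟩ := EXG_prs.1 h1
    refine mem_coe.2 (mem_filter.2 ⟨EXG_prs.2 ⟨a3, a4, a1, a2, a5.symm⟩, h2, ?_⟩)
    rw [add_comm]
    exact h3
  · intro p _
    exact Prod.swap_swap p
  · intro p _
    exact Prod.swap_swap p

theorem RST_ZY {ι : Type} [DecidableEq ι] (C : Finset ι) (x : ι → ℝ) (k : ℕ) :
    2 * RST_Z C x k ≤ RST_Y C x k := by
  have h : 2 * RST_Z C x k = RST_Z C x k + ((MP_9999b5_mr.prs C k).filter
      (fun p => ∑ i ∈ p.1, x i < 0 ∧ ∑ i ∈ p.1, x i + ∑ i ∈ p.2, x i = 0)).card := by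
    rw [RST_swap]
    ring
  rw [h]
  unfold RST_Z RST_Y
  rw [← card_union_of_disjoint]
  · apply card_le_card
    intro p hp
    rw [mem_union, mem_filter, mem_filter] at hp
    rw [mem_filter]
    rcases hp with ⟨h1, _, h3⟩ | ⟨h1, _, h3⟩
    · exact ⟨h1, h3⟩
    · exact ⟨h1, h3⟩
  · rw [disjoint_filter]
    rintro p _ ⟨h1, h2⟩ ⟨h3, _⟩
    linarith

theorem RST_Yle {ι : Type} [DecidableEq ι] (k T : ℕ) (hT : 1 ≤ T) (C : Finset ι)
    (x : ι → ℝ) (hC : C.card = 2 * k + T) (hinj : Set.InjOn x C) :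
    (2 * k + 1) * RST_Y C x k ≤ (MP_9999b5_mr.prs C k).card := by
  have hPAI := MP_9999b5_mr.p_PAI
  have hN : (MP_9999b5_mr.prs C k).card = (2 * k).choose k * C.card.choose (2 * k) := by
    have h := hPAI ι C k (fun _ _ => 1)
    rw [Finset.card_eq_sum_ones, h]
    have h2 : ∀ U ∈ C.powersetCard (2 * k), ∑ B ∈ U.powersetCard k, 1 = (2 * k).choose k := by
      intro U hU
      rw [← Finset.card_eq_sum_ones, Finset.card_powersetCard, (Finset.mem_powersetCard.mp hU).2]
    rw [Finset.sum_congr rfl h2, Finset.sum_const, Finset.card_powersetCard, smul_eq_mul]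
    ring
  have hY : RST_Y C x k = (2 * k).choose k *
      ((C.powersetCard (2 * k)).filter (fun U => ∑ i ∈ U, x i = 0)).card := by
    have h := hPAI ι C k (fun B₁ B₂ => if ∑ i ∈ B₁, x i + ∑ i ∈ B₂, x i = 0 then 1 else 0)
    unfold RST_Y
    rw [Finset.card_filter, h, Finset.card_filter, Finset.mul_sum]
    refine Finset.sum_congr rfl (fun U hU => ?_)
    have h2 : ∀ B ∈ U.powersetCard k,
        (if ∑ i ∈ B, x i + ∑ i ∈ U \ B, x i = 0 then 1 else 0) =
          (if ∑ i ∈ U, x i = 0 then 1 else 0) := by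
      intro B hB
      have h3 : ∑ i ∈ B, x i + ∑ i ∈ U \ B, x i = ∑ i ∈ U, x i := by
        rw [add_comm]
        exact Finset.sum_sdiff (Finset.mem_powersetCard.mp hB).1
      rw [h3]
    rw [Finset.sum_congr rfl h2, Finset.sum_const, Finset.card_powersetCard,
      (Finset.mem_powersetCard.mp hU).2, smul_eq_mul]
  have hT0 : (0 : ℝ) < (T : ℝ) := by exact_mod_cast hT
  set c := ∑ i ∈ C, x i with hc
  have hcomp : ((C.powersetCard (2 * k)).filter (fun U => ∑ i ∈ U, x i = 0)).card =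
      ((C.powersetCard T).filter (fun K => ∑ i ∈ K, (x i - c / T) = 0)).card := by
    rw [EX2_comp C (2 * k) T hC (fun K => ∑ i ∈ K, (x i - c / T) = 0)]
    congr 1
    apply Finset.filter_congr
    intro U hU
    obtain ⟨hU1, hU2⟩ := Finset.mem_powersetCard.1 hU
    rw [Finset.sum_sub_distrib, Finset.sum_const, nsmul_eq_mul,
      Finset.card_sdiff_of_subset hU1, hC, hU2]
    have e1 : ((2 * k + T - 2 * k : ℕ) : ℝ) * (c / T) = c := by
      have : 2 * k + T - 2 * k = T := by omega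
      rw [this]
      field_simp
    rw [e1]
    have e2 : ∑ i ∈ C \ U, x i + ∑ i ∈ U, x i = c := Finset.sum_sdiff hU1
    constructor
    · intro h
      linarith
    · intro h
      linarith
  have hz := ZE2_inj C (fun i => x i - c / T) T (by
    intro i hi j hj hij
    simp only at hij
    exact hinj hi hj (by linarith))
  obtain ⟨zz, hzz⟩ : ∃ zz, zz = ((C.powersetCard T).filter
    (fun K => ∑ i ∈ K, (x i - c / T) = 0)).card := ⟨_, rfl⟩
  rw [hcomp, ← hzz] at hY
  rw [← hzz] at hz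
  have h4 : (2 * k + 1) * C.card.choose (T - 1) = T * C.card.choose T := by
    obtain ⟨j, hj⟩ : ∃ j, T = j + 1 := ⟨T - 1, by omega⟩
    have h := Nat.choose_succ_right_eq C.card j
    have e1 : C.card - j = 2 * k + 1 := by omega
    rw [e1, ← hj] at h
    have e2 : T - 1 = j := by omega
    rw [e2, mul_comm (2 * k + 1), ← h, mul_comm]
  have h5 : (2 * k + 1) * zz ≤ C.card.choose T := by
    apply Nat.le_of_mul_le_mul_left _ (show 0 < T by omega)
    calc T * ((2 * k + 1) * zz) = (2 * k + 1) * (T * zz) := by ring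
      _ ≤ (2 * k + 1) * C.card.choose (T - 1) := Nat.mul_le_mul_left _ hz
      _ = T * C.card.choose T := h4
  have h6 : C.card.choose (2 * k) = C.card.choose T := by
    rw [hC]
    exact Nat.choose_symm_add
  rw [hN, hY, h6]
  calc (2 * k + 1) * ((2 * k).choose k * zz) = (2 * k).choose k * ((2 * k + 1) * zz) := by ring
    _ ≤ (2 * k).choose k * C.card.choose T := Nat.mul_le_mul_left _ h5

theorem RST_main {ι : Type} [DecidableEq ι] (k T : ℕ) (φ : ℝ) (hk : 1 ≤ k) (hT : 1 ≤ T)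
    (hW : Pool.Agent.Work.MaxSums.W T (k + T) φ) (C : Finset ι) (x : ι → ℝ)
    (hC : C.card = 2 * k + T) (hinj : Set.InjOn x C) (hc : 0 ≤ ∑ i ∈ C, x i) :
    φ * ((k + T) * (k + T - 1)) * (EX2_L C x k : ℝ) ≤
      (k + T - 1) * k * (RST_A C x k : ℝ) + (k + T - 1) * T * (RST_G C x k : ℝ)
      + k * T * (RST_Z C x k : ℝ) := by
  have hL : (EX2_L C x k : ℝ) = ∑ B ∈ C.powersetCard k,
      ((((C \ B).powersetCard k).filter (fun _ => ∑ i ∈ B, x i ≤ 0)).card : ℝ) := by
    unfold EX2_L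
    rw [EX2_fib C k (fun _ B => ∑ i ∈ B, x i ≤ 0), Nat.cast_sum]
  have hA : (RST_A C x k : ℝ) = ∑ B ∈ C.powersetCard k,
      ((((C \ B).powersetCard k).filter (fun A => ∑ i ∈ B, x i ≤ 0 ∧
        ∑ i ∈ (C \ B) \ A, x i < ∑ i ∈ C, x i)).card : ℝ) := by
    unfold RST_A
    rw [EX2_fib C k (fun A B => ∑ i ∈ B, x i ≤ 0 ∧ ∑ i ∈ (C \ B) \ A, x i < ∑ i ∈ C, x i),
      Nat.cast_sum]
  have hG : (RST_G C x k : ℝ) = ∑ B ∈ C.powersetCard k,
      ((((C \ B).powersetCard k).filter (fun A => ∑ i ∈ B, x i ≤ 0 ∧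
        0 < ∑ i ∈ A, x i)).card : ℝ) := by
    unfold RST_G
    rw [EX2_fib C k (fun A B => ∑ i ∈ B, x i ≤ 0 ∧ 0 < ∑ i ∈ A, x i), Nat.cast_sum]
  have hZ : (RST_Z C x k : ℝ) = ∑ B ∈ C.powersetCard k,
      ((((C \ B).powersetCard k).filter (fun A => ∑ i ∈ B, x i < 0 ∧
        ∑ i ∈ A, x i + ∑ i ∈ B, x i = 0)).card : ℝ) := by
    unfold RST_Z
    rw [EX2_fib C k (fun A B => ∑ i ∈ B, x i < 0 ∧ ∑ i ∈ A, x i + ∑ i ∈ B, x i = 0),
      Nat.cast_sum]
  rw [hL, hA, hG, hZ, Finset.mul_sum, Finset.mul_sum, Finset.mul_sum, Finset.mul_sum,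
    ← Finset.sum_add_distrib, ← Finset.sum_add_distrib]
  refine Finset.sum_le_sum ?_
  intro B hB
  obtain ⟨hB1, hB2⟩ := mem_powersetCard.1 hB
  by_cases hb : ∑ i ∈ B, x i ≤ 0
  · have hR : (C \ B).card = k + T := by
      rw [card_sdiff_of_subset hB1]
      omega
    have sC : ∑ i ∈ C \ B, x i + ∑ i ∈ B, x i = ∑ i ∈ C, x i := sum_sdiff hB1
    have h1 := RST_loc k T φ hk hT hW (C \ B) x hR (hinj.mono (by
      intro i hi
      exact (Finset.mem_sdiff.1 (Finset.mem_coe.1 hi)).1)) (∑ i ∈ C, x i) (∑ i ∈ C \ B, x i) hc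
      (by linarith) rfl
    rw [EX2_comp (C \ B) k T hR (fun K => ∑ i ∈ K, x i < ∑ i ∈ C, x i),
      EX2_comp (C \ B) k T hR (fun K => ∑ i ∈ K, x i < ∑ i ∈ C \ B, x i),
      EX2_comp (C \ B) k T hR (fun K => ∑ i ∈ K, x i = ∑ i ∈ C, x i ∧
        ∑ i ∈ C, x i < ∑ i ∈ C \ B, x i)] at h1
    have e1 : (((C \ B).powersetCard k).filter (fun _ => ∑ i ∈ B, x i ≤ 0)).card =
        (k + T).choose T := by
      rw [filter_true_of_mem (fun _ _ => hb), card_powersetCard, hR]
      rw [Nat.choose_symm_add]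
    have e2 : ((C \ B).powersetCard k).filter (fun A => ∑ i ∈ B, x i ≤ 0 ∧
        ∑ i ∈ (C \ B) \ A, x i < ∑ i ∈ C, x i) =
        ((C \ B).powersetCard k).filter (fun A => ∑ i ∈ (C \ B) \ A, x i < ∑ i ∈ C, x i) := by
      apply filter_congr
      intro A _
      exact ⟨fun h => h.2, fun h => ⟨hb, h⟩⟩
    have e3 : ((C \ B).powersetCard k).filter (fun A => ∑ i ∈ B, x i ≤ 0 ∧
        0 < ∑ i ∈ A, x i) =
        ((C \ B).powersetCard k).filter
          (fun A => ∑ i ∈ (C \ B) \ A, x i < ∑ i ∈ C \ B, x i) := by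
      apply filter_congr
      intro A hA'
      have sD : ∑ i ∈ (C \ B) \ A, x i + ∑ i ∈ A, x i = ∑ i ∈ C \ B, x i :=
        sum_sdiff (mem_powersetCard.1 hA').1
      constructor
      · intro h
        linarith [h.2]
      · intro h
        exact ⟨hb, by linarith⟩
    have e4 : ((C \ B).powersetCard k).filter (fun A => ∑ i ∈ B, x i < 0 ∧
        ∑ i ∈ A, x i + ∑ i ∈ B, x i = 0) =
        ((C \ B).powersetCard k).filter
          (fun A => ∑ i ∈ (C \ B) \ A, x i = ∑ i ∈ C, x i ∧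
            ∑ i ∈ C, x i < ∑ i ∈ C \ B, x i) := by
      apply filter_congr
      intro A hA'
      have sD : ∑ i ∈ (C \ B) \ A, x i + ∑ i ∈ A, x i = ∑ i ∈ C \ B, x i :=
        sum_sdiff (mem_powersetCard.1 hA').1
      constructor
      · rintro ⟨h, h'⟩
        exact ⟨by linarith, by linarith⟩
      · rintro ⟨h, h'⟩
        exact ⟨by linarith, by linarith⟩
    rw [e1, e2, e3, e4]
    exact h1
  · have e1 : ((C \ B).powersetCard k).filter (fun _ => ∑ i ∈ B, x i ≤ 0) = ∅ :=
      filter_false_of_mem (fun _ _ => hb)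
    have e2 : ((C \ B).powersetCard k).filter (fun A => ∑ i ∈ B, x i ≤ 0 ∧
        ∑ i ∈ (C \ B) \ A, x i < ∑ i ∈ C, x i) = ∅ :=
      filter_false_of_mem (fun _ _ h => hb h.1)
    have e3 : ((C \ B).powersetCard k).filter (fun A => ∑ i ∈ B, x i ≤ 0 ∧
        0 < ∑ i ∈ A, x i) = ∅ :=
      filter_false_of_mem (fun _ _ h => hb h.1)
    have e4 : ((C \ B).powersetCard k).filter (fun A => ∑ i ∈ B, x i < 0 ∧
        ∑ i ∈ A, x i + ∑ i ∈ B, x i = 0) = ∅ :=
      filter_false_of_mem (fun _ _ h => hb h.1.le)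
    rw [e1, e2, e3, e4, card_empty]
    simp

/-- strict R-flow -/
theorem p_RST (k T : ℕ) (φ : ℝ) (hk : 1 ≤ k) (hT : 1 ≤ T)
    (hW : Pool.Agent.Work.MaxSums.W T (k + T) φ) (ι : Type) [DecidableEq ι] (C : Finset ι)
    (x : ι → ℝ) (hC : C.card = 2 * k + T) (hinj : Set.InjOn x C) (hc : 0 ≤ ∑ i ∈ C, x i) :
    φ * (((MP_9999b5_mr.prs C k).card : ℝ) + (MP_9999b5_mr.bad C x k : ℝ) - (pp C x k : ℝ)) ≤
      (((MP_9999b5_mr.prs C k).card : ℝ) - (pp C x k : ℝ) - (MP_9999b5_mr.hvy C x k : ℝ)) +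
      (T : ℝ) / (k + T) * ((MP_9999b5_mr.hvy C x k : ℝ) - (MP_9999b5_mr.bad C x k : ℝ)) +
      (T : ℝ) * k / ((k + T) * (k + T - 1) * (2 * k + 1)) *
        ((MP_9999b5_mr.prs C k).card : ℝ) := by
  have h1 := RST_main k T φ hk hT hW C x hC hinj hc
  have h2 : (EX2_L C x k : ℝ) = (RST_G C x k : ℝ) + (MP_9999b5_mr.bad C x k : ℝ) := by
    exact_mod_cast RST_LG C x k
  have h3 : 2 * (EX2_L C x k : ℝ) + (pp C x k : ℝ) =
      ((MP_9999b5_mr.prs C k).card : ℝ) + (MP_9999b5_mr.bad C x k : ℝ) := by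
    exact_mod_cast EX2_two C x k
  have h4 : 2 * ((EXG_N C x k).card : ℝ) + (pp C x k : ℝ) + (MP_9999b5_mr.hvy C x k : ℝ) =
      ((MP_9999b5_mr.prs C k).card : ℝ) := by
    exact_mod_cast EXG_count C x k
  have h5 : (RST_A C x k : ℝ) ≤ ((EXG_N C x k).card : ℝ) := by
    exact_mod_cast RST_AN C x k
  have h6 : 2 * (RST_Z C x k : ℝ) ≤ (RST_Y C x k : ℝ) := by
    exact_mod_cast RST_ZY C x k
  have h7 : (2 * (k : ℝ) + 1) * (RST_Y C x k : ℝ) ≤ ((MP_9999b5_mr.prs C k).card : ℝ) := by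
    exact_mod_cast RST_Yle k T hT C x hC hinj
  have hk1 : (1 : ℝ) ≤ (k : ℝ) := by exact_mod_cast hk
  have hT1 : (1 : ℝ) ≤ (T : ℝ) := by exact_mod_cast hT
  set N : ℝ := ((MP_9999b5_mr.prs C k).card : ℝ) with hN
  set Bd : ℝ := (MP_9999b5_mr.bad C x k : ℝ) with hBd
  set P : ℝ := (pp C x k : ℝ) with hP
  set H : ℝ := (MP_9999b5_mr.hvy C x k : ℝ) with hH
  have hkT : (0 : ℝ) < (k : ℝ) + T := by linarith
  have hkT1 : (0 : ℝ) < (k : ℝ) + T - 1 := by linarith
  have h2k : (0 : ℝ) < 2 * (k : ℝ) + 1 := by linarith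
  -- multiply by 2 and insert
  have g1 : φ * ((k + T) * (k + T - 1)) * (N + Bd - P) ≤
      (k + T - 1) * k * (N - P - H) + (k + T - 1) * T * (N - Bd - P) +
      k * T * (RST_Y C x k : ℝ) := by
    have e1 : N + Bd - P = 2 * (EX2_L C x k : ℝ) := by linarith
    have e2 : N - Bd - P = 2 * (RST_G C x k : ℝ) := by linarith
    have e3 : (2 : ℝ) * (RST_A C x k : ℝ) ≤ N - P - H := by linarith
    have f1 : (0 : ℝ) ≤ ((k : ℝ) + T - 1) * k := by positivity
    have f2 := mul_le_mul_of_nonneg_left e3 f1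
    have f3 : (0 : ℝ) ≤ (k : ℝ) * T := by positivity
    have f4 := mul_le_mul_of_nonneg_left h6 f3
    rw [e1, e2]
    nlinarith
  have g2 : (RST_Y C x k : ℝ) ≤ N / (2 * k + 1) := by
    rw [le_div_iff₀ h2k]
    linarith
  have g3 : φ * ((k + T) * (k + T - 1)) * (N + Bd - P) ≤
      (k + T - 1) * k * (N - P - H) + (k + T - 1) * T * (N - Bd - P) +
      k * T * (N / (2 * k + 1)) := by
    have f3 : (0 : ℝ) ≤ (k : ℝ) * T := by positivity
    have f4 := mul_le_mul_of_nonneg_left g2 f3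
    linarith
  have hpos : (0 : ℝ) < (k + T) * (k + T - 1) := mul_pos hkT hkT1
  apply le_of_mul_le_mul_left _ hpos
  calc ((k : ℝ) + T) * (k + T - 1) * (φ * (N + Bd - P))
      = φ * ((k + T) * (k + T - 1)) * (N + Bd - P) := by ring
    _ ≤ (k + T - 1) * k * (N - P - H) + (k + T - 1) * T * (N - Bd - P) +
      k * T * (N / (2 * k + 1)) := g3
    _ = ((k : ℝ) + T) * (k + T - 1) * ((N - P - H) + (T : ℝ) / (k + T) * (H - Bd) +
      (T : ℝ) * k / ((k + T) * (k + T - 1) * (2 * k + 1)) * N) := by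
        field_simp
        ring

end Pool.Agent.Work.MP_9999b5_st
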